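import Pool.Agent.H692R2.GM.Zmod

/-!
# Task M9: an `MA` machine can be fooled
-/

namespace Pool.Agent.H752.GM

open Pool.Agent.NPC Pool.Agent.H620R2.Gauge Finset H568R2

namespace Ammod

open Zmod

theorem kr_add_kw (x : List Bool) : kr x + kw x = kk x + 1 := by
  unfold kw kr
  omega

theorem row_append {n : ℕ} (r : Fin n → Bool) (w : List Bool) :
    (fun i : Fin n => (List.ofFn r ++ w).getD i false) = r := by
  funext i
  rw [List.getD_append _ _ _ _ (by simp)]
  simp [List.getD_eq_getElem?_getD]

theorem col_append {n m : ℕ} (r : Fin n → Bool) (w : Fin m → Bool) :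
    (fun i : Fin m => (List.ofFn r ++ List.ofFn w).getD (n + i) false) = w := by
  funext i
  rw [List.getD_append_right _ _ _ _ (by simp)]
  simp [List.getD_eq_getElem?_getD]

theorem ofFn_of_length {n : ℕ} {w : List Bool} (h : w.length = n) :
    ∃ w' : Fin n → Bool, w = List.ofFn w' := by
  subst h
  exact ⟨fun i => w.get i, (List.ofFn_get w).symm⟩

open Classical in
/-- the oracle with the block content `a` -/
noncomputable def oa (A : Oracle) (x : List Bool)
    (a : (Fin (kr x) → Bool) → (Fin (kw x) → Bool) → Bool) : Oracle := fun y =>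
  if ∃ i < nm x, y = mkS x i then true
  else if ∃ v : List Bool, v.length = kk x + 1 ∧ y = pairBits x v then
    a (fun i => (unpair y).2.getD i false) (fun i => (unpair y).2.getD (kr x + i) false) else A y

variable {A : Oracle} {x : List Bool} {a : (Fin (kr x) → Bool) → (Fin (kw x) → Bool) → Bool}

theorem oa_out {y : List Bool} (h : y ∉ blk x) : oa A x a y = A y := by
  unfold oa
  rw [if_neg (fun h' => h (Or.inr h')), if_neg (fun h' => h (Or.inl h'))]

theorem oa_m : Marked (oa A x a) x := by
  intro i hi
  unfold oa
  rw [if_pos ⟨i, hi, rfl⟩]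

theorem oa_blk (r : Fin (kr x) → Bool) (w : Fin (kw x) → Bool) :
    oa A x a (pairBits x (List.ofFn r ++ List.ofFn w)) = a r w := by
  have hl : (List.ofFn r ++ List.ofFn w).length = kk x + 1 := by
    rw [List.length_append, List.length_ofFn, List.length_ofFn, kr_add_kw]
  unfold oa
  rw [if_neg (fun h' => by obtain ⟨i, _, h1⟩ := h'; exact mkS_ne hl h1.symm), if_pos ⟨_, hl, rfl⟩,
    unpair_pairBits]
  simp only
  rw [row_append, col_append]

theorem oa_congr {a' : (Fin (kr x) → Bool) → (Fin (kw x) → Bool) → Bool} {y : List Bool}
    (h : a' (fun i => (unpair y).2.getD i false) (fun i => (unpair y).2.getD (kr x + i) false) =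
      a (fun i => (unpair y).2.getD i false) (fun i => (unpair y).2.getD (kr x + i) false)) :
    oa A x a' y = oa A x a y := by
  unfold oa
  rw [h]

theorem oa_row (r : Fin (kr x) → Bool) :
    RowGood (oa A x a) x (List.ofFn r) ↔ ∃ w, a r w = true := by
  unfold RowGood
  constructor
  · rintro ⟨w, hw, h⟩
    obtain ⟨w', rfl⟩ := ofFn_of_length hw
    rw [oa_blk] at h
    exact ⟨w', h⟩
  · rintro ⟨w, hw⟩
    exact ⟨List.ofFn w, List.length_ofFn, by rw [oa_blk]; exact hw⟩

theorem row_congr {A' : Oracle} (h : ∀ y ∈ blk x, A' y = A y) {r : List Bool}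
    (hr : r.length = kr x) : RowGood A' x r ↔ RowGood A x r := by
  unfold RowGood
  refine exists_congr fun w => and_congr_right fun hw => ?_
  rw [h _ (mem_blk_v (by rw [List.length_append, hr, hw, kr_add_kw]))]

theorem lang_congr {A' : Oracle} (h : ∀ y ∈ blk x, A' y = A y) :
    x ∈ amLang A' ↔ x ∈ amLang A := by
  unfold amLang
  show (Marked A' x ∧ ∀ r : List Bool, r.length = kr x → RowGood A' x r) ↔
    (Marked A x ∧ ∀ r : List Bool, r.length = kr x → RowGood A x r)
  rw [marked_congr h]
  refine and_congr Iff.rfl (forall_congr' fun r => ?_)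
  constructor
  · intro h1 hr
    exact (row_congr h hr).1 (h1 hr)
  · intro h1 hr
    exact (row_congr h hr).2 (h1 hr)

theorem good_congr {A' : Oracle} (h : ∀ y ∈ blk x, A' y = A y) (hg : AMGood A x) :
    AMGood A' x := by
  rcases hg with hg | hg
  · exact Or.inl fun r hr => (row_congr h hr).2 (hg r hr)
  · right
    have h1 : ∀ r : Fin (kr x) → Bool, RowGood A' x (List.ofFn r) ↔ RowGood A x (List.ofFn r) :=
      fun r => row_congr h List.length_ofFn
    simp only [h1]
    exact hg

/-- the strings of length at most `m` -/
abbrev Yt (m : ℕ) : Type := {y : List Bool // y.length ≤ m}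

/-- they are given by strings of length `m + 1` -/
def enc (m : ℕ) (y : Yt m) : Fin (m + 1) → Bool :=
  fun i => (List.replicate (m - y.1.length) false ++ true :: y.1).getD i false

theorem enc_inj (m : ℕ) : Function.Injective (enc m) := by
  intro y y' h
  have hlen : ∀ y : Yt m, (List.replicate (m - y.1.length) false ++ true :: y.1).length =
      m + 1 := by
    intro y
    have := y.2
    rw [List.length_append, List.length_replicate, List.length_cons]
    omega
  have h1 : List.replicate (m - y.1.length) false ++ true :: y.1 =
      List.replicate (m - y'.1.length) false ++ true :: y'.1 := by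
    apply List.ext_getElem (by rw [hlen, hlen])
    intro i hi hi'
    rw [hlen] at hi
    have h2 := congrFun h ⟨i, hi⟩
    unfold enc at h2
    simp only at h2
    rwa [List.getD_eq_getElem _ _ (by rw [hlen]; exact hi),
      List.getD_eq_getElem _ _ (by rw [hlen]; exact hi)] at h2
  have key : ∀ (n n' : ℕ) (l l' : List Bool), List.replicate n false ++ true :: l =
      List.replicate n' false ++ true :: l' → l = l' := by
    intro n
    induction n with
    | zero =>
      intro n' l l' h
      cases n' with
      | zero => simpa using h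
      | succ n' => simp [List.replicate_succ] at h
    | succ n ih =>
      intro n' l l' h
      cases n' with
      | zero => simp [List.replicate_succ] at h
      | succ n' =>
        simp only [List.replicate_succ, List.cons_append, List.cons.injEq, true_and] at h
        exact ih n' l l' h
  exact Subtype.ext (key _ _ _ _ h1)

noncomputable instance (m : ℕ) : Fintype (Yt m) := Fintype.ofInjective (enc m) (enc_inj m)

theorem card_Yt (m : ℕ) : Fintype.card (Yt m) ≤ 2 ^ (m + 1) := by
  have h := Fintype.card_le_of_injective (enc m) (enc_inj m)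
  simpa using h

theorem inp_len {m : ℕ} (z : Fin m → Bool) {y : List Bool} (hy : y.length ≤ m) (x : List Bool) :
    (pairBits (List.ofFn z) (pairBits y x)).length ≤ 4 * m + 2 + x.length := by
  rw [length_pairBits, length_pairBits, List.length_ofFn]
  omega

end Ammod

open Zmod Ammod in
theorem t_ammod (h1 : St_adv) : St_ammod := by
  classical
  intro M p
  obtain ⟨qb, hqb⟩ := Alg.out_local M
  set L : Polynomial ℕ := Polynomial.C 4 * p + Polynomial.C 2 + Polynomial.X with hL
  have hLe : ∀ n, L.eval n = 4 * p.eval n + 2 + n := fun n => by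
    rw [hL]
    simp
  refine ⟨(Polynomial.C 3 * (p + Polynomial.C 1) + Polynomial.C 12 * M.p.comp L +
    Polynomial.C 2) ^ 2, bq + qb.comp L, fun x => ⟨?_, ?_⟩⟩
  · intro hP A
    set m := p.eval x.length with hm
    set q := M.p.eval (L.eval x.length) with hq
    have hP' : 2 * (3 * (m + 1) + 12 * q + 2) ^ 2 ≤ 2 ^ kk x := by
      refine le_trans (le_of_eq ?_) hP
      rw [Polynomial.eval_pow]
      simp only [Polynomial.eval_add, Polynomial.eval_mul, Polynomial.eval_C,
        Polynomial.eval_comp]
      rw [hm, hq]
    have hsq : ∀ k : ℕ, kk x ≤ 2 * k → 3 * (m + 1) + 12 * q + 2 ≤ 2 ^ k := by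
      intro k hk
      by_contra hlt
      push Not at hlt
      have h2 : (2 ^ k) ^ 2 < (3 * (m + 1) + 12 * q + 2) ^ 2 := Nat.pow_lt_pow_left hlt (by norm_num)
      have h3 : 2 ^ kk x ≤ (2 ^ k) ^ 2 := by
        rw [← pow_mul, mul_comm k 2]
        exact Nat.pow_le_pow_right (by norm_num) hk
      omega
    have hR := hsq (kr x) (by unfold kr; omega)
    have hK := hsq (kw x) (by unfold kw kr; omega)
    -- the verifier
    obtain ⟨a, ha⟩ := h1 (Fin (kr x) → Bool) (Fin (kw x) → Bool) (Yt m) (Fin m → Bool)
      inferInstance inferInstance inferInstance inferInstance inferInstance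
      (fun y z a => decide (M.out (oa A x a) (pairBits (List.ofFn z) (pairBits y.1 x)) =
        some [true])) q (m + 1) (by
        intro y z a
        obtain ⟨Q, hQ1, _, hQ3⟩ := hqb (oa A x a) (pairBits (List.ofFn z) (pairBits y.1 x))
        refine ⟨Q.image (fun u => ((fun i => (unpair u).2.getD i false),
          (fun i => (unpair u).2.getD (kr x + i) false))), ?_, ?_⟩
        · refine Finset.card_image_le.trans (hQ1.trans ?_)
          rw [hq]
          apply eval_mono
          rw [hLe]
          exact inp_len z y.2 x
        · intro a' ha'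
          rw [hQ3 (oa A x a') (fun u hu => oa_congr (ha' _ (Finset.mem_image_of_mem _ hu)))])
      (card_Yt m) (by
        rw [Fintype.card_fun, Fintype.card_bool, Fintype.card_fin]
        omega) (by
        rw [Fintype.card_fun, Fintype.card_bool, Fintype.card_fin]
        omega)
    refine ⟨oa A x a, fun y hy => oa_out hy, oa_m, ?_, ?_⟩
    · rcases ha with ⟨ha, -⟩ | ⟨ha, -⟩
      · left
        intro r hr
        obtain ⟨r', rfl⟩ := ofFn_of_length hr
        exact (oa_row r').2 (ha r')
      · right
        simp only [oa_row]
        simpa using ha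
    · rintro ⟨hc1, hc2⟩
      have hacc : ∀ y : Yt m, accN M (oa A x a) m y.1 x = Nat.card {z : Fin m → Bool //
          decide (M.out (oa A x a) (pairBits (List.ofFn z) (pairBits y.1 x)) = some [true]) =
            true} := by
        intro y
        unfold accN
        simp only [decide_eq_true_eq]
      rcases ha with ⟨ha, hb⟩ | ⟨ha, y, hb⟩
      · have hx : x ∈ amLang (oa A x a) := by
          refine ⟨oa_m, fun r hr => ?_⟩
          obtain ⟨r', rfl⟩ := ofFn_of_length hr
          exact (oa_row r').2 (ha r')
        obtain ⟨y, hy, h5⟩ := hc1 hx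
        have h6 := hb ⟨y, hy⟩
        rw [← hacc ⟨y, hy⟩] at h6
        simp only [Fintype.card_fun, Fintype.card_bool, Fintype.card_fin] at h6
        rw [← hm] at h5
        omega
      · have hx : x ∉ amLang (oa A x a) := by
          rintro ⟨_, h5⟩
          have h6 : ∀ r : Fin (kr x) → Bool, ∃ w, a r w = true := fun r =>
            (oa_row r).1 (h5 _ List.length_ofFn)
          have h7 : Nat.card {r : Fin (kr x) → Bool // ∃ w, a r w = true} = 2 ^ kr x := by
            rw [Nat.card_congr (Equiv.subtypeUnivEquiv h6)]
            simp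
          rw [h7] at ha
          simp only [Fintype.card_fun, Fintype.card_bool, Fintype.card_fin] at ha
          have : 0 < 2 ^ kr x := by positivity
          omega
        have h5 := hc2 hx y.1 y.2
        rw [← hm, hacc y] at h5
        simp only [Fintype.card_fun, Fintype.card_bool, Fintype.card_fin] at hb
        omega
  · intro A A' h hR
    have hb : ∀ y ∈ blk x, A' y = A y := fun y hy => h y (by
      have := blk_len hy
      rw [Polynomial.eval_add]
      omega)
    obtain ⟨hm, hg, hn⟩ := hR
    refine ⟨(marked_congr hb).2 hm, good_congr hb hg, fun hc => hn ?_⟩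
    have hout : ∀ (z : Fin (p.eval x.length) → Bool) (y : List Bool), y.length ≤ p.eval x.length →
        M.out A' (pairBits (List.ofFn z) (pairBits y x)) =
          M.out A (pairBits (List.ofFn z) (pairBits y x)) := by
      intro z y hy
      obtain ⟨Q, _, hQ2, hQ3⟩ := hqb A (pairBits (List.ofFn z) (pairBits y x))
      refine hQ3 A' fun u hu => h u ?_
      have h5 := hQ2 u hu
      rw [Polynomial.eval_add, Polynomial.eval_comp]
      refine (h5.trans (eval_mono qb ?_)).trans (Nat.le_add_left _ _)
      rw [hLe]
      exact inp_len z hy x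
    have hacc : ∀ y : List Bool, y.length ≤ p.eval x.length →
        accN M A' (p.eval x.length) y x = accN M A (p.eval x.length) y x := by
      intro y hy
      unfold accN
      simp only [hout _ y hy]
    obtain ⟨hc1, hc2⟩ := hc
    constructor
    · intro hx
      obtain ⟨y, hy, h5⟩ := hc1 ((lang_congr hb).2 hx)
      rw [hacc y hy] at h5
      exact ⟨y, hy, h5⟩
    · intro hx y hy
      have h5 := hc2 (fun h6 => hx ((lang_congr hb).1 h6)) y hy
      rw [hacc y hy] at h5
      exact h5

end Pool.Agent.H752.GM
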