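import Pool.Agent.H752.GM.Stubs
import Pool.Agent.H620R2.Gauge.A1

/-!
# Task M6: a deterministic machine can be fooled
-/

namespace Pool.Agent.H752.GM

open Pool.Agent.NPC Pool.Agent.H620R2.Gauge Finset H568R2

namespace Zmod

theorem pairBits_inj {x v x' v' : List Bool} (h : pairBits x v = pairBits x' v') :
    x = x' ∧ v = v' := by
  have h1 := unpair_pairBits x v
  have h2 := unpair_pairBits x' v'
  rw [h, h2] at h1
  exact ⟨(congrArg Prod.fst h1).symm, (congrArg Prod.snd h1).symm⟩

theorem mem_blk_v {x v : List Bool} (h : v.length = kk x + 1) : pairBits x v ∈ blk x :=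
  Or.inl ⟨v, h, rfl⟩

theorem mem_blk_m {x : List Bool} {i : ℕ} (h : i < nm x) : mkS x i ∈ blk x := Or.inr ⟨i, h, rfl⟩

theorem mkS_ne {x v : List Bool} {i : ℕ} (h : v.length = kk x + 1) : mkS x i ≠ pairBits x v := by
  intro h1
  have h2 := (pairBits_inj h1).2
  have h3 := congrArg List.length h2
  rw [List.length_replicate, h] at h3
  omega

theorem kk_le (x : List Bool) : kk x ≤ (x.length + 2) * x.length + 4 := by
  unfold kk
  have h1 : ones x ≤ x.length := List.length_filter_le _ _
  have h2 : x.length.size ≤ x.length := Nat.size_le.2 Nat.lt_two_pow_self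
  have h3 := Nat.mul_le_mul (Nat.add_le_add_right h1 2) h2
  omega

/-- the bound for the length of the strings of the block -/
noncomputable def bq : Polynomial ℕ :=
  Polynomial.C 5 * Polynomial.X + Polynomial.C 17 + (Polynomial.X + Polynomial.C 2) * Polynomial.X

theorem blk_len {x y : List Bool} (h : y ∈ blk x) : y.length ≤ bq.eval x.length := by
  have h1 := kk_le x
  have h2 : bq.eval x.length = 5 * x.length + 17 + (x.length + 2) * x.length := by
    simp [bq]
  rw [h2]
  rcases h with ⟨v, hv, rfl⟩ | ⟨i, hi, rfl⟩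
  · rw [length_pairBits, hv]
    omega
  · unfold mkS
    rw [length_pairBits, List.length_replicate]
    unfold nm at hi
    omega

theorem marked_congr {A A' : Oracle} {x : List Bool} (h : ∀ y ∈ blk x, A' y = A y) :
    Marked A' x ↔ Marked A x := by
  unfold Marked
  constructor
  · intro h1 i hi
    rw [← h _ (mem_blk_m hi)]
    exact h1 i hi
  · intro h1 i hi
    rw [h _ (mem_blk_m hi)]
    exact h1 i hi

theorem zgood_congr {A A' : Oracle} {x : List Bool} (h : ∀ y ∈ blk x, A' y = A y) (b : Bool) :
    ZGood A x b → ZGood A' x b := by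
  rintro ⟨h1, h2⟩
  refine ⟨?_, ?_⟩
  · have h3 : ∀ w : Fin (kk x) → Bool, A' (pairBits x (b :: List.ofFn w)) =
        A (pairBits x (b :: List.ofFn w)) := fun w => h _ (mem_blk_v (by simp))
    simp only [h3]
    exact h1
  · intro w hw
    rw [h _ (mem_blk_v (by simp [hw]))]
    exact h2 w hw

theorem zlang_congr {A A' : Oracle} {x : List Bool} (h : ∀ y ∈ blk x, A' y = A y) :
    x ∈ zLang A' ↔ x ∈ zLang A := by
  unfold zLang
  rw [Set.mem_setOf_eq, Set.mem_setOf_eq, marked_congr h]
  refine and_congr Iff.rfl (exists_congr fun w => and_congr_right fun hw => ?_)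
  rw [h _ (mem_blk_v (by simp [hw]))]

theorem zlang_of_good {A : Oracle} {x : List Bool} {b : Bool} (hm : Marked A x)
    (hg : ZGood A x b) : x ∈ zLang A ↔ b = true := by
  obtain ⟨h1, h2⟩ := hg
  cases b with
  | false =>
    refine ⟨fun h => ?_, fun h => absurd h (by simp)⟩
    obtain ⟨_, w, hw, h3⟩ := h
    have h4 := h2 w hw
    rw [Bool.not_false, h3] at h4
    exact absurd h4 (by simp)
  | true =>
    refine ⟨fun _ => rfl, fun _ => ⟨hm, ?_⟩⟩
    have h3 : 0 < Nat.card {w : Fin (kk x) → Bool // A (pairBits x (true :: List.ofFn w)) = true} := by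
      have : 0 < 2 ^ kk x := by positivity
      omega
    rw [Nat.card_pos_iff] at h3
    obtain ⟨⟨w, hw⟩⟩ := h3.1
    exact ⟨List.ofFn w, List.length_ofFn, hw⟩

open Classical in
/-- the first modification: the markers of `x` are set to true, the block to false -/
noncomputable def A0 (A : Oracle) (x : List Bool) : Oracle := fun y =>
  if ∃ i < nm x, y = mkS x i then true
  else if ∃ v : List Bool, v.length = kk x + 1 ∧ y = pairBits x v then false else A y

open Classical in
/-- the second modification -/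
noncomputable def A1 (A : Oracle) (x : List Bool) (b : Bool) (Q : Finset (List Bool)) : Oracle :=
  fun y => if (∃ w : List Bool, w.length = kk x ∧ y = pairBits x (b :: w)) ∧ y ∉ Q then true
    else A0 A x y

theorem A0_out {A : Oracle} {x y : List Bool} (h : y ∉ blk x) : A0 A x y = A y := by
  unfold A0
  rw [if_neg (fun h' => h (Or.inr h')), if_neg (fun h' => h (Or.inl h'))]

theorem A0_blk {A : Oracle} {x v : List Bool} (h : v.length = kk x + 1) :
    A0 A x (pairBits x v) = false := by
  unfold A0
  rw [if_neg (fun h' => by obtain ⟨i, _, h1⟩ := h'; exact mkS_ne h h1.symm), if_pos ⟨v, h, rfl⟩]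

theorem A0_m {A : Oracle} {x : List Bool} {i : ℕ} (h : i < nm x) : A0 A x (mkS x i) = true := by
  unfold A0
  rw [if_pos ⟨i, h, rfl⟩]

theorem A1_out {A : Oracle} {x y : List Bool} {b : Bool} {Q : Finset (List Bool)}
    (h : y ∉ blk x) : A1 A x b Q y = A y := by
  unfold A1
  rw [if_neg, A0_out h]
  rintro ⟨⟨w, hw, rfl⟩, _⟩
  exact h (mem_blk_v (by simp [hw]))

theorem A1_Q {A : Oracle} {x y : List Bool} {b : Bool} {Q : Finset (List Bool)}
    (h : y ∈ Q) : A1 A x b Q y = A0 A x y := by
  unfold A1
  rw [if_neg (fun h' => h'.2 h)]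

theorem A1_m {A : Oracle} {x : List Bool} {b : Bool} {Q : Finset (List Bool)} :
    Marked (A1 A x b Q) x := by
  intro i hi
  unfold A1
  split_ifs with h
  · rfl
  · exact A0_m hi

theorem A1_good {A : Oracle} {x : List Bool} {b : Bool} {Q : Finset (List Bool)}
    (hQ : 2 * Q.card ≤ 2 ^ kk x) : ZGood (A1 A x b Q) x b := by
  classical
  refine ⟨?_, ?_⟩
  · set k := kk x with hk
    rw [Nat.card_eq_fintype_card, Fintype.card_subtype]
    have htot : (Finset.univ.filter (fun w : Fin k → Bool =>
          A1 A x b Q (pairBits x (b :: List.ofFn w)) = true)).card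
        + (Finset.univ.filter (fun w : Fin k → Bool =>
          ¬ A1 A x b Q (pairBits x (b :: List.ofFn w)) = true)).card = 2 ^ k := by
      rw [Finset.card_filter_add_card_filter_not]
      simp
    have hbad : (Finset.univ.filter (fun w : Fin k → Bool =>
          ¬ A1 A x b Q (pairBits x (b :: List.ofFn w)) = true)).card ≤ Q.card := by
      apply Finset.card_le_card_of_injOn (fun w => pairBits x (b :: List.ofFn w))
      · intro w hw
        simp only [Finset.coe_filter, Finset.mem_univ, true_and, Set.mem_setOf_eq] at hw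
        by_contra hnot
        apply hw
        unfold A1
        rw [if_pos ⟨⟨List.ofFn w, by simp [hk], rfl⟩, hnot⟩]
      · intro w _ w' _ h
        have h3 := (pairBits_inj h).2
        exact List.ofFn_injective (List.cons.inj h3).2
    omega
  · intro w hw
    unfold A1
    rw [if_neg, A0_blk (by simp [hw])]
    rintro ⟨⟨w', _, h⟩, _⟩
    have h3 := (List.cons.inj (pairBits_inj h).2).1
    cases b <;> simp at h3

end Zmod

open Zmod in
theorem t_zmod : St_zmod := by
  classical
  intro M
  obtain ⟨qb, hqb⟩ := Alg.out_local M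
  refine ⟨M.p, qb + bq, fun x => ⟨?_, ?_⟩⟩
  · intro hP A
    obtain ⟨Q, hQ1, hQ2, hQ3⟩ := hqb (A0 A x) x
    have hc : 2 * Q.card ≤ 2 ^ kk x := by omega
    refine ⟨A1 A x (decide (¬ (M.out (A0 A x) x = some [true]))) Q, fun y hy => A1_out hy,
      A1_m, ⟨_, A1_good hc⟩, ?_⟩
    rw [zlang_of_good A1_m (A1_good hc), hQ3 _ (fun q hq => A1_Q hq), decide_eq_true_eq]
    tauto
  · intro A A' h hR
    have h1 : ∀ y ∈ blk x, A' y = A y := fun y hy => h y (by
      have := blk_len hy
      rw [Polynomial.eval_add]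
      omega)
    obtain ⟨hm, ⟨b, hb⟩, hn⟩ := hR
    obtain ⟨Q, hQ1, hQ2, hQ3⟩ := hqb A x
    refine ⟨(marked_congr h1).2 hm, ⟨b, zgood_congr h1 b hb⟩, ?_⟩
    rw [zlang_congr h1, hQ3 A' (fun q hq => h q (by
      have := hQ2 q hq
      rw [Polynomial.eval_add]
      omega))]
    exact hn

end Pool.Agent.H752.GM
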